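import Mathlib

open Complex MeasureTheory Set Filter Topology Metric

namespace Pool.Agent.Results.MP_9b5b1e_an.SlowContraction

/-- The point `e^{iθ}` of the unit circle. -/
noncomputable def pt (θ : ℝ) : ℂ := circleMap 0 1 θ

/-- Lebesgue measure on the angles of one full turn (arc length on the unit circle). -/
noncomputable def arcLength : Measure ℝ := volume.restrict (Ioc 0 (2 * Real.pi))

/-- `f` has the radial limit `l` at the boundary point `e^{iθ}`. -/
def RadialLimit (f : ℂ → ℂ) (θ : ℝ) (l : ℂ) : Prop :=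
  Tendsto (fun r : ℝ => f (r * pt θ)) (𝓝[<] 1) (𝓝 l)

/-- `f` is an inner function of the unit disc. -/
structure IsInner (f : ℂ → ℂ) : Prop where
  holo : DifferentiableOn ℂ f (ball 0 1)
  maps : MapsTo f (ball 0 1) (ball 0 1)
  radial : ∀ᵐ θ ∂arcLength, ∃ l : ℂ, ‖l‖ = 1 ∧ RadialLimit f θ l

/-- The forward compositions: `forward f n` is the composition of the first `n` maps. -/
def forward (f : ℕ → ℂ → ℂ) : ℕ → ℂ → ℂ
  | 0 => id
  | n + 1 => f n ∘ forward f n

/-- Pseudohyperbolic distance. -/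
noncomputable def pdist (z w : ℂ) : ℝ := ‖z - w‖ / ‖1 - (starRingEnd ℂ) z * w‖

/-- Hyperbolic distance of the unit disc (curvature `-1`). -/
noncomputable def hdist (z w : ℂ) : ℝ := Real.log ((1 + pdist z w) / (1 - pdist z w))

/-- The sequence `F` is contracting. -/
def Contracting (F : ℕ → ℂ → ℂ) : Prop :=
  ∀ z ∈ ball (0 : ℂ) 1, ∀ w ∈ ball (0 : ℂ) 1,
    Tendsto (fun n => hdist (F n z) (F n w)) atTop (𝓝 0)

/-- Interior orbits converge to the boundary. -/
def OrbitsToBoundary (F : ℕ → ℂ → ℂ) : Prop :=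
  ∀ z ∈ ball (0 : ℂ) 1, Tendsto (fun n => ‖F n z‖) atTop (𝓝 1)

/-- The Denjoy-Wolff set, as a set of angles: the boundary values (radial limits) `l n` of `F n` at
`e^{iθ}` exist and `|l n - F n 0|` tends to `0`. -/
def denjoyWolffSet (F : ℕ → ℂ → ℂ) : Set ℝ :=
  {θ | ∃ l : ℕ → ℂ, (∀ n, RadialLimit (F n) θ (l n)) ∧
    Tendsto (fun n => ‖l n - F n 0‖) atTop (𝓝 0)}

/-! ### Moebius maps -/

/-- disc automorphism -/
noncomputable def mob (a : ℝ) (z : ℂ) : ℂ := (z + a) / (1 + a * z)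

lemma den_ne {a : ℝ} (ha : |a| < 1) {z : ℂ} (hz : ‖z‖ ≤ 1) : (1 + a * z : ℂ) ≠ 0 := by
  intro h
  have h1 : (a : ℂ) * z = -1 := by linear_combination h
  have h2 : ‖(a : ℂ) * z‖ = 1 := by rw [h1]; simp
  rw [norm_mul, Complex.norm_real, Real.norm_eq_abs] at h2
  nlinarith [abs_nonneg a, norm_nonneg z]

lemma normSq_id (a : ℝ) (z : ℂ) :
    ‖1 + a * z‖ ^ 2 - ‖z + a‖ ^ 2 = (1 - a ^ 2) * (1 - ‖z‖ ^ 2) := by
  rw [← Complex.normSq_eq_norm_sq, ← Complex.normSq_eq_norm_sq, ← Complex.normSq_eq_norm_sq]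
  simp only [Complex.normSq_apply, Complex.add_re, Complex.add_im, Complex.one_re, Complex.one_im,
    Complex.mul_re, Complex.mul_im, Complex.ofReal_re, Complex.ofReal_im]
  ring

lemma sq_lt_one {a : ℝ} (ha : |a| < 1) : 0 < 1 - a ^ 2 := by
  have := (sq_lt_one_iff_abs_lt_one a).2 ha
  linarith

lemma mob_le {a : ℝ} (ha : |a| < 1) {z : ℂ} (hz : ‖z‖ ≤ 1) : ‖mob a z‖ ≤ 1 := by
  have hd : 0 < ‖(1 + a * z : ℂ)‖ := norm_pos_iff.2 (den_ne ha hz)
  rw [mob, norm_div, div_le_one hd]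
  have h := normSq_id a z
  have h1 : 0 ≤ (1 - a ^ 2) * (1 - ‖z‖ ^ 2) :=
    mul_nonneg (sq_lt_one ha).le (by nlinarith [norm_nonneg z])
  exact le_of_sq_le_sq (by linarith) hd.le

lemma mob_lt {a : ℝ} (ha : |a| < 1) {z : ℂ} (hz : ‖z‖ < 1) : ‖mob a z‖ < 1 := by
  have hd : 0 < ‖(1 + a * z : ℂ)‖ := norm_pos_iff.2 (den_ne ha hz.le)
  rw [mob, norm_div, div_lt_one hd]
  have h := normSq_id a z
  have h1 : 0 < (1 - a ^ 2) * (1 - ‖z‖ ^ 2) :=
    mul_pos (sq_lt_one ha) (by nlinarith [norm_nonneg z])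
  exact lt_of_pow_lt_pow_left₀ 2 hd.le (by linarith)

lemma mob_eq_one {a : ℝ} (ha : |a| < 1) {z : ℂ} (hz : ‖z‖ = 1) : ‖mob a z‖ = 1 := by
  have hd : 0 < ‖(1 + a * z : ℂ)‖ := norm_pos_iff.2 (den_ne ha hz.le)
  rw [mob, norm_div, div_eq_one_iff_eq hd.ne']
  have h := normSq_id a z
  rw [hz] at h
  have h1 : ‖z + a‖ ^ 2 = ‖(1 + a * z : ℂ)‖ ^ 2 := by linarith
  exact (pow_left_inj₀ (norm_nonneg _) (norm_nonneg _) two_ne_zero).1 h1

lemma mob_zero_right (a : ℝ) : mob a 0 = a := by simp [mob]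

lemma mob_zero_left (z : ℂ) : mob 0 z = z := by simp [mob]

lemma mob_neg_mob {a : ℝ} (ha : |a| < 1) {z : ℂ} (hz : ‖z‖ ≤ 1) : mob (-a) (mob a z) = z := by
  have h1 := den_ne ha hz
  have h2 : (1 - a ^ 2 : ℂ) ≠ 0 := by
    have := (sq_lt_one ha).ne'
    exact_mod_cast this
  have h3 : (1 + (((-a : ℝ)) : ℂ) * ((z + a) / (1 + a * z))) = (1 - a ^ 2) / (1 + a * z) := by
    push_cast
    field_simp
    ring
  rw [mob, mob, h3, div_div_eq_mul_div, div_eq_iff h2]
  have h4 : (z + a) / (1 + a * z) * (1 + a * z) = z + a := div_mul_cancel₀ _ h1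
  push_cast
  linear_combination h4

lemma mob_cont {a : ℝ} (ha : |a| < 1) : ContinuousOn (mob a) (closedBall 0 1) := by
  intro z hz
  have hz' : ‖z‖ ≤ 1 := by simpa using hz
  have := den_ne ha hz'
  unfold mob
  fun_prop (disch := assumption)

lemma mob_diff {a : ℝ} (ha : |a| < 1) : DifferentiableOn ℂ (mob a) (ball 0 1) := by
  intro z hz
  have hz' : ‖z‖ < 1 := by simpa using hz
  have := den_ne ha hz'.le
  unfold mob
  fun_prop (disch := assumption)

/-- degree two Blaschke product -/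
noncomputable def bl (c : ℝ) (z : ℂ) : ℂ := z * mob c z

lemma bl_le_self {c : ℝ} (hc : |c| < 1) {z : ℂ} (hz : ‖z‖ ≤ 1) : ‖bl c z‖ ≤ ‖z‖ := by
  rw [bl, norm_mul]
  have := mob_le hc hz
  nlinarith [norm_nonneg z]

lemma bl_eq_one {c : ℝ} (hc : |c| < 1) {z : ℂ} (hz : ‖z‖ = 1) : ‖bl c z‖ = 1 := by
  rw [bl, norm_mul, mob_eq_one hc hz, hz, one_mul]

lemma bl_cont {c : ℝ} (hc : |c| < 1) : ContinuousOn (bl c) (closedBall 0 1) :=
  continuousOn_id.mul (mob_cont hc)

lemma bl_diff {c : ℝ} (hc : |c| < 1) : DifferentiableOn ℂ (bl c) (ball 0 1) :=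
  differentiableOn_id.mul (mob_diff hc)

/-! ### The parameters -/

noncomputable def av (n : ℕ) : ℝ := 1 - (1 / 4) ^ (Nat.log 4 n)

noncomputable def cv (n : ℕ) : ℝ :=
  if Nat.log 4 (n + 1) = Nat.log 4 n then 1 - (1 / 16) ^ (Nat.log 4 n + 1) else 0

lemma av_nonneg (n : ℕ) : 0 ≤ av n := by
  unfold av
  have : ((1 : ℝ) / 4) ^ (Nat.log 4 n) ≤ 1 := pow_le_one₀ (by norm_num) (by norm_num)
  linarith

lemma av_lt (n : ℕ) : av n < 1 := by
  unfold av
  have : 0 < ((1 : ℝ) / 4) ^ (Nat.log 4 n) := by positivity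
  linarith

lemma av_abs (n : ℕ) : |av n| < 1 := by
  rw [abs_of_nonneg (av_nonneg n)]; exact av_lt n

lemma av_abs' (n : ℕ) : |-av n| < 1 := by rw [abs_neg]; exact av_abs n

lemma cv_nonneg (n : ℕ) : 0 ≤ cv n := by
  unfold cv
  split_ifs
  · have : ((1 : ℝ) / 16) ^ (Nat.log 4 n + 1) ≤ 1 := pow_le_one₀ (by norm_num) (by norm_num)
    linarith
  · exact le_rfl

lemma cv_lt (n : ℕ) : cv n < 1 := by
  unfold cv
  split_ifs
  · have : 0 < ((1 : ℝ) / 16) ^ (Nat.log 4 n + 1) := by positivity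
    linarith
  · exact one_pos

lemma cv_abs (n : ℕ) : |cv n| < 1 := by
  rw [abs_of_nonneg (cv_nonneg n)]; exact cv_lt n

/-- the compositions before the final Moebius map -/
noncomputable def BB : ℕ → ℂ → ℂ
  | 0 => id
  | n + 1 => fun z => bl (cv n) (BB n z)

/-- the maps -/
noncomputable def ff (n : ℕ) (z : ℂ) : ℂ := mob (av (n + 1)) (bl (cv n) (mob (-av n) z))

lemma BB_le (n : ℕ) {z : ℂ} (hz : ‖z‖ ≤ 1) : ‖BB n z‖ ≤ ‖z‖ := by
  induction n with
  | zero => exact le_rfl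
  | succ n ih => exact (bl_le_self (cv_abs n) (ih.trans hz)).trans ih

lemma BB_one (n : ℕ) {z : ℂ} (hz : ‖z‖ = 1) : ‖BB n z‖ = 1 := by
  induction n with
  | zero => exact hz
  | succ n ih => exact bl_eq_one (cv_abs n) ih

lemma BB_zero (n : ℕ) : BB n 0 = 0 := by
  induction n with
  | zero => rfl
  | succ n ih => simp [BB, ih, bl]

lemma BB_maps (n : ℕ) : MapsTo (BB n) (closedBall 0 1) (closedBall 0 1) := by
  intro z hz
  have hz' : ‖z‖ ≤ 1 := by simpa using hz
  simpa using (BB_le n hz').trans hz'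

lemma BB_maps' (n : ℕ) : MapsTo (BB n) (ball 0 1) (ball 0 1) := by
  intro z hz
  have hz' : ‖z‖ < 1 := by simpa using hz
  simpa using (BB_le n hz'.le).trans_lt hz'

lemma BB_cont (n : ℕ) : ContinuousOn (BB n) (closedBall 0 1) := by
  induction n with
  | zero => exact continuousOn_id
  | succ n ih => exact (bl_cont (cv_abs n)).comp ih (BB_maps n)

lemma BB_diff (n : ℕ) : DifferentiableOn ℂ (BB n) (ball 0 1) := by
  induction n with
  | zero => exact differentiableOn_id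
  | succ n ih => exact (bl_diff (cv_abs n)).comp ih (BB_maps' n)

lemma forward_eq (n : ℕ) {z : ℂ} (hz : ‖z‖ ≤ 1) : forward ff n z = mob (av n) (BB n z) := by
  induction n with
  | zero =>
    have : av 0 = 0 := by simp [av]
    simp [forward, BB, this, mob_zero_left]
  | succ n ih =>
    show ff n (forward ff n z) = _
    rw [ih, ff, mob_neg_mob (av_abs n) ((BB_le n hz).trans hz)]
    rfl

lemma radial_of_cont {f : ℂ → ℂ} (hf : ContinuousOn f (closedBall 0 1)) (θ : ℝ) :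
    RadialLimit f θ (f (pt θ)) := by
  have hp : ‖pt θ‖ = 1 := by simp [pt]
  have h1 : pt θ ∈ closedBall (0 : ℂ) 1 := by simp [hp]
  have h2 : Tendsto (fun r : ℝ => (r : ℂ) * pt θ) (𝓝[<] 1) (𝓝[closedBall 0 1] (pt θ)) := by
    rw [tendsto_nhdsWithin_iff]
    constructor
    · have : Continuous (fun r : ℝ => (r : ℂ) * pt θ) := by fun_prop
      have h := this.tendsto 1
      simp only [Complex.ofReal_one, one_mul] at h
      exact h.mono_left nhdsWithin_le_nhds
    · have : Ioo (0 : ℝ) 1 ∈ 𝓝[<] (1 : ℝ) := Ioo_mem_nhdsLT one_pos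
      filter_upwards [this] with r hr
      simp only [mem_closedBall, dist_zero_right, norm_mul, hp, mul_one, Complex.norm_real,
        Real.norm_eq_abs]
      rw [abs_of_pos hr.1]
      exact hr.2.le
  exact (hf (pt θ) h1).tendsto.comp h2

lemma ff_cont (n : ℕ) : ContinuousOn (ff n) (closedBall 0 1) := by
  refine (mob_cont (av_abs (n + 1))).comp ((bl_cont (cv_abs n)).comp (mob_cont (av_abs' n)) ?_) ?_
  · intro z hz
    have hz' : ‖z‖ ≤ 1 := by simpa using hz
    simpa using mob_le (av_abs' n) hz'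
  · intro z hz
    have hz' : ‖z‖ ≤ 1 := by simpa using hz
    have h := mob_le (av_abs' n) hz'
    simpa using (bl_le_self (cv_abs n) h).trans h

lemma ff_inner (n : ℕ) : IsInner (ff n) := by
  refine ⟨?_, ?_, ?_⟩
  · refine (mob_diff (av_abs (n + 1))).comp
      ((bl_diff (cv_abs n)).comp (mob_diff (av_abs' n)) ?_) ?_
    · intro z hz
      have hz' : ‖z‖ < 1 := by simpa using hz
      simpa using mob_lt (av_abs' n) hz'
    · intro z hz
      have hz' : ‖z‖ < 1 := by simpa using hz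
      have h := mob_lt (av_abs' n) hz'
      simpa using (bl_le_self (cv_abs n) h.le).trans_lt h
  · intro z hz
    have hz' : ‖z‖ < 1 := by simpa using hz
    have h := mob_lt (av_abs' n) hz'
    simpa [ff] using mob_lt (av_abs (n + 1)) ((bl_le_self (cv_abs n) h.le).trans_lt h)
  · refine Eventually.of_forall fun θ => ⟨ff n (pt θ), ?_, radial_of_cont (ff_cont n) θ⟩
    have hp : ‖pt θ‖ = 1 := by simp [pt]
    exact mob_eq_one (av_abs (n + 1)) (bl_eq_one (cv_abs n) (mob_eq_one (av_abs' n) hp))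

lemma ff_not_inj (n : ℕ) : ¬ InjOn (ff n) (ball 0 1) := by
  have key : ∃ u v : ℂ, ‖u‖ < 1 ∧ ‖v‖ < 1 ∧ u ≠ v ∧ bl (cv n) u = bl (cv n) v := by
    by_cases hc : cv n = 0
    · refine ⟨1 / 2, -1 / 2, by norm_num, by norm_num, by norm_num, ?_⟩
      rw [hc, bl, bl, mob_zero_left, mob_zero_left]
      norm_num
    · refine ⟨0, -(cv n : ℂ), by simp, ?_, ?_, ?_⟩
      · rw [norm_neg, Complex.norm_real]; exact cv_abs n
      · simpa using hc
      · simp [bl, mob]
  obtain ⟨u, v, hu, hv, huv, he⟩ := key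
  intro hinj
  apply huv
  have h1 := hinj (x₁ := mob (av n) u) (x₂ := mob (av n) v) (by simpa using mob_lt (av_abs n) hu)
    (by simpa using mob_lt (av_abs n) hv)
    (by simp only [ff]; rw [mob_neg_mob (av_abs n) hu.le, mob_neg_mob (av_abs n) hv.le, he])
  have h2 := congrArg (mob (-av n)) h1
  rwa [mob_neg_mob (av_abs n) hu.le, mob_neg_mob (av_abs n) hv.le] at h2

/-! ### Interior behaviour -/

lemma log_succ_le (n : ℕ) : Nat.log 4 (n + 1) ≤ Nat.log 4 n + 1 := by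
  have h1 : n < 4 ^ (Nat.log 4 n + 1) := Nat.lt_pow_succ_log_self (by norm_num) n
  have h2 : n + 1 < 4 ^ (Nat.log 4 n + 1 + 1) := by
    have : 4 ^ (Nat.log 4 n + 1) < 4 ^ (Nat.log 4 n + 1 + 1) :=
      Nat.pow_lt_pow_right (by norm_num) (Nat.lt_succ_self _)
    omega
  have h3 := Nat.log_lt_of_lt_pow (b := 4) (x := Nat.log 4 n + 1 + 1) (y := n + 1)
    (Nat.succ_ne_zero n) h2
  omega

lemma log_tendsto : Tendsto (fun n : ℕ => Nat.log 4 n) atTop atTop := by
  rw [Filter.tendsto_atTop]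
  intro b
  filter_upwards [eventually_ge_atTop (4 ^ b)] with n hn
  calc b = Nat.log 4 (4 ^ b) := (Nat.log_pow (by norm_num) b).symm
    _ ≤ Nat.log 4 n := Nat.log_mono_right hn

lemma BB_small (n : ℕ) {z : ℂ} (hz : ‖z‖ ≤ 1) : ‖BB n z‖ ≤ ‖z‖ ^ (Nat.log 4 n + 1) := by
  induction n with
  | zero => simp [BB]
  | succ n ih =>
    by_cases h : Nat.log 4 (n + 1) = Nat.log 4 n
    · rw [h]
      exact (bl_le_self (cv_abs n) ((BB_le n hz).trans hz)).trans ih
    · have h1 : Nat.log 4 n ≤ Nat.log 4 (n + 1) := Nat.log_mono_right (Nat.le_succ n)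
      have h2 := log_succ_le n
      have h3 : Nat.log 4 (n + 1) = Nat.log 4 n + 1 := by omega
      have hc : cv n = 0 := by simp [cv, h]
      have h4 : BB (n + 1) z = BB n z * BB n z := by
        show bl (cv n) (BB n z) = _
        rw [hc, bl, mob_zero_left]
      rw [h4, norm_mul, h3, pow_succ]
      have h5 : ‖BB n z‖ ≤ ‖z‖ := BB_le n hz
      exact mul_le_mul ih h5 (norm_nonneg _) (by positivity)

lemma BB_tendsto {z : ℂ} (hz : ‖z‖ < 1) : Tendsto (fun n => BB n z) atTop (𝓝 0) := by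
  rw [tendsto_zero_iff_norm_tendsto_zero]
  have h1 : Tendsto (fun n => ‖z‖ ^ (Nat.log 4 n + 1)) atTop (𝓝 0) :=
    (tendsto_pow_atTop_nhds_zero_of_lt_one (norm_nonneg z) hz).comp
      ((tendsto_add_atTop_nat 1).comp log_tendsto)
  exact squeeze_zero (fun _ => norm_nonneg _) (fun n => BB_small n hz.le) h1

lemma av_tendsto : Tendsto av atTop (𝓝 1) := by
  have h1 : Tendsto (fun n => ((1 : ℝ) / 4) ^ (Nat.log 4 n)) atTop (𝓝 0) :=
    (tendsto_pow_atTop_nhds_zero_of_lt_one (by norm_num) (by norm_num)).comp log_tendsto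
  have h2 := h1.const_sub 1
  rw [sub_zero] at h2
  exact h2

lemma forward_tendsto {z : ℂ} (hz : ‖z‖ < 1) :
    Tendsto (fun n => forward ff n z) atTop (𝓝 1) := by
  have h1 : ∀ n, forward ff n z = (BB n z + av n) / (1 + av n * BB n z) := by
    intro n
    rw [forward_eq n hz.le]
    rfl
  simp_rw [h1]
  have hb := BB_tendsto hz
  have ha : Tendsto (fun n => (av n : ℂ)) atTop (𝓝 1) := by
    have := (Complex.continuous_ofReal.tendsto 1).comp av_tendsto
    simpa [Function.comp_def] using this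
  have h2 := (hb.add ha).div ((ha.mul hb).const_add 1) (by simp)
  simpa [Pi.div_def] using h2

lemma to_boundary : OrbitsToBoundary (forward ff) := by
  intro z hz
  have hz' : ‖z‖ < 1 := by simpa using hz
  simpa using (forward_tendsto hz').norm

lemma pdist_mob {a : ℝ} (ha : |a| < 1) {u v : ℂ} (hu : ‖u‖ ≤ 1) (hv : ‖v‖ ≤ 1) :
    pdist (mob a u) (mob a v) = pdist u v := by
  have h1 := den_ne ha hu
  have h2 := den_ne ha hv
  have hcu : ‖(starRingEnd ℂ) u‖ ≤ 1 := by simpa using hu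
  have h3 := den_ne ha hcu
  have h4 : (1 - a ^ 2 : ℂ) ≠ 0 := by
    have := (sq_lt_one ha).ne'
    exact_mod_cast this
  have e1 : mob a u - mob a v = (1 - a ^ 2) * (u - v) / ((1 + a * u) * (1 + a * v)) := by
    unfold mob
    rw [div_sub_div _ _ h1 h2]
    congr 1
    ring
  have e2 : 1 - (starRingEnd ℂ) (mob a u) * mob a v =
      (1 - a ^ 2) * (1 - (starRingEnd ℂ) u * v) /
        ((1 + a * (starRingEnd ℂ) u) * (1 + a * v)) := by
    unfold mob
    simp only [map_div₀, map_add, map_mul, map_one, Complex.conj_ofReal]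
    rw [div_mul_div_comm, eq_div_iff (mul_ne_zero h3 h2), sub_mul,
      div_mul_cancel₀ _ (mul_ne_zero h3 h2)]
    ring
  have e3 : ‖(1 + a * (starRingEnd ℂ) u : ℂ)‖ = ‖(1 + a * u : ℂ)‖ := by
    rw [← Complex.norm_conj (1 + a * u)]
    simp
  have n1 : ‖(1 + a * u : ℂ)‖ ≠ 0 := norm_ne_zero_iff.2 h1
  have n2 : ‖(1 + a * v : ℂ)‖ ≠ 0 := norm_ne_zero_iff.2 h2
  have n4 : ‖(1 - a ^ 2 : ℂ)‖ ≠ 0 := norm_ne_zero_iff.2 h4
  unfold pdist
  rw [e1, e2, norm_div, norm_div, norm_mul, norm_mul, norm_mul, norm_mul, e3]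
  generalize ‖(1 + a * u : ℂ)‖ = x at *
  generalize ‖(1 + a * v : ℂ)‖ = y at *
  generalize ‖(1 - a ^ 2 : ℂ)‖ = t at *
  have hxy : x * y ≠ 0 := mul_ne_zero n1 n2
  rw [div_div_div_cancel_right₀ hxy, mul_div_mul_left _ _ n4]

lemma contracting : Contracting (forward ff) := by
  intro z hz w hw
  have hz' : ‖z‖ < 1 := by simpa using hz
  have hw' : ‖w‖ < 1 := by simpa using hw
  have h1 : ∀ n, pdist (forward ff n z) (forward ff n w) = pdist (BB n z) (BB n w) := by
    intro n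
    rw [forward_eq n hz'.le, forward_eq n hw'.le,
      pdist_mob (av_abs n) ((BB_le n hz'.le).trans hz'.le) ((BB_le n hw'.le).trans hw'.le)]
  have hbz := BB_tendsto hz'
  have hbw := BB_tendsto hw'
  have h2 : Tendsto (fun n => pdist (BB n z) (BB n w)) atTop (𝓝 0) := by
    have hc : Tendsto (fun n => (starRingEnd ℂ) (BB n z)) atTop (𝓝 0) := by
      have := (Complex.continuous_conj.tendsto 0).comp hbz
      simpa [Function.comp_def] using this
    have h3 := (hbz.sub hbw).norm.div ((hc.mul hbw).const_sub 1).norm (by simp)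
    simpa [pdist, Pi.div_def] using h3
  have h4 : Tendsto (fun n => (1 + pdist (BB n z) (BB n w)) / (1 - pdist (BB n z) (BB n w)))
      atTop (𝓝 1) := by
    have := (h2.const_add 1).div (h2.const_sub 1) (by norm_num)
    simpa [Pi.div_def] using this
  have h5 := (Real.continuousAt_log one_ne_zero).tendsto.comp h4
  rw [Real.log_one] at h5
  refine h5.congr fun n => ?_
  simp only [hdist, Function.comp, h1]

lemma not_summable : ¬ Summable (fun n => 1 - ‖forward ff n 0‖) := by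
  intro hs
  have h1 : ∀ n, 1 - ‖forward ff n 0‖ = (1 / 4) ^ (Nat.log 4 n) := by
    intro n
    rw [forward_eq n (by simp), BB_zero, mob_zero_right, Complex.norm_real, Real.norm_eq_abs,
      abs_of_nonneg (av_nonneg n), av]
    ring
  simp_rw [h1] at hs
  have h2 : ∀ n : ℕ, 0 ≤ (1 : ℝ) / n := fun n => by positivity
  apply Real.not_summable_one_div_natCast
  refine Summable.of_nonneg_of_le h2 (fun n => ?_) hs
  rcases Nat.eq_zero_or_pos n with rfl | hn
  · simp
  · have h3 : 4 ^ Nat.log 4 n ≤ n := Nat.pow_log_le_self 4 hn.ne'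
    have h4 : ((4 : ℝ) ^ Nat.log 4 n) ≤ n := by exact_mod_cast h3
    rw [one_div_pow]
    exact one_div_le_one_div_of_le (by positivity) h4

/-! ### Boundary behaviour -/

lemma re_formula (r : ℝ) (w : ℂ) :
    ((1 - r * w) / (1 + r * w)).re = (1 - r ^ 2 * ‖w‖ ^ 2) / ‖1 + r * w‖ ^ 2 := by
  rw [Complex.div_re, ← add_div, ← Complex.normSq_eq_norm_sq, ← Complex.normSq_eq_norm_sq]
  congr 1
  simp only [Complex.normSq_apply, Complex.add_re, Complex.add_im, Complex.one_re, Complex.one_im,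
    Complex.mul_re, Complex.mul_im, Complex.ofReal_re, Complex.ofReal_im, Complex.sub_re,
    Complex.sub_im]
  ring

lemma arcLength_lt_top (s : Set ℝ) : arcLength s < ⊤ := by
  refine lt_of_le_of_lt (measure_mono (subset_univ s)) ?_
  have h : arcLength univ = ENNReal.ofReal (2 * Real.pi) := by
    simp only [arcLength, Measure.restrict_apply MeasurableSet.univ, univ_inter, Real.volume_Ioc,
      sub_zero]
  rw [h]
  exact ENNReal.ofReal_lt_top

lemma meas_bound {B : ℂ → ℂ} (hc : ContinuousOn B (closedBall 0 1))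
    (hd : DifferentiableOn ℂ B (ball 0 1)) (hb : ∀ z, ‖z‖ ≤ 1 → ‖B z‖ ≤ 1) (h0 : B 0 = 0)
    {ρ : ℝ} (hρ : 0 < ρ) (hρ1 : ρ < 1) :
    arcLength {θ | ‖B (pt θ) + 1‖ < ρ} ≤ ENNReal.ofReal (8 * Real.pi * ρ) := by
  set r : ℝ := 1 - ρ with hr
  have hr0 : 0 < r := by linarith
  have hr1 : |r| < 1 := by rw [abs_of_pos hr0]; linarith
  have hden : ∀ z, ‖z‖ ≤ 1 → (1 + r * B z : ℂ) ≠ 0 := fun z hz => den_ne hr1 (hb z hz)
  set g : ℂ → ℂ := fun z => (1 - r * B z) / (1 + r * B z) with hg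
  have hgc : ContinuousOn g (closedBall 0 1) := by
    refine ContinuousOn.div ?_ ?_ ?_
    · exact continuousOn_const.sub (continuousOn_const.mul hc)
    · exact continuousOn_const.add (continuousOn_const.mul hc)
    · intro z hz
      exact hden z (by simpa using hz)
  have hgd : DiffContOnCl ℂ g (ball 0 |1|) := by
    rw [abs_one]
    refine ⟨?_, ?_⟩
    · refine DifferentiableOn.div ?_ ?_ ?_
      · exact (differentiableOn_const _).sub ((differentiableOn_const _).mul hd)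
      · exact (differentiableOn_const _).add ((differentiableOn_const _).mul hd)
      · intro z hz
        exact hden z (by have : ‖z‖ < 1 := by simpa using hz
                         exact this.le)
    · rw [closure_ball _ one_ne_zero]
      exact hgc
  have havg := hgd.circleAverage
  rw [Real.circleAverage_def] at havg
  have hg0 : g 0 = 1 := by simp [hg, h0]
  rw [hg0] at havg
  have hptc : Continuous pt := by
    unfold pt
    fun_prop
  have hpt1 : ∀ θ, ‖pt θ‖ = 1 := fun θ => by simp [pt]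
  have hgpc : Continuous (fun θ => g (pt θ)) :=
    hgc.comp_continuous hptc (fun θ => by simp [hpt1])
  have hBpc : Continuous (fun θ => B (pt θ)) :=
    hc.comp_continuous hptc (fun θ => by simp [hpt1])
  have hint : ∫ θ in (0 : ℝ)..(2 * Real.pi), (g (pt θ)).re = 2 * Real.pi := by
    have h1 : ∫ θ in (0 : ℝ)..(2 * Real.pi), g (pt θ) = ((2 * Real.pi : ℝ) : ℂ) := by
      have h2 : (2 * Real.pi) • ((2 * Real.pi)⁻¹ •
          ∫ θ in (0 : ℝ)..(2 * Real.pi), g (circleMap 0 1 θ)) = (2 * Real.pi) • (1 : ℂ) := by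
        rw [havg]
      rw [smul_smul, mul_inv_cancel₀ (by positivity), one_smul] at h2
      show ∫ θ in (0 : ℝ)..(2 * Real.pi), g (circleMap 0 1 θ) = _
      rw [h2]
      simp
    have h3 := Complex.reCLM.intervalIntegral_comp_comm
      (hgpc.intervalIntegrable (μ := volume) 0 (2 * Real.pi))
    simp only [Complex.reCLM_apply] at h3
    rw [h3, h1, Complex.ofReal_re]
  rw [intervalIntegral.integral_of_le (by positivity)] at hint
  have hnum : ∀ θ, 1 - r ^ 2 ≤ 1 - r ^ 2 * ‖B (pt θ)‖ ^ 2 := by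
    intro θ
    have h1 := hb (pt θ) (hpt1 θ).le
    have h2 : ‖B (pt θ)‖ ^ 2 ≤ 1 := by nlinarith [norm_nonneg (B (pt θ))]
    nlinarith [sq_nonneg r]
  have hnum2 : ρ ≤ 1 - r ^ 2 := by nlinarith
  have hpos : ∀ θ, 0 ≤ (g (pt θ)).re := by
    intro θ
    simp only [hg, re_formula]
    have := hnum θ
    exact div_nonneg (by linarith) (by positivity)
  have hbig : ∀ θ, ‖B (pt θ) + 1‖ < ρ → 1 / (4 * ρ) ≤ (g (pt θ)).re := by
    intro θ hθ
    simp only [hg, re_formula]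
    have h1 : ‖(1 + r * B (pt θ) : ℂ)‖ ≤ 2 * ρ := by
      have h2 : (1 + r * B (pt θ) : ℂ) = (B (pt θ) + 1) - ρ * B (pt θ) := by
        rw [hr]; push_cast; ring
      rw [h2]
      refine (norm_sub_le _ _).trans ?_
      rw [norm_mul, Complex.norm_real, Real.norm_eq_abs, abs_of_pos hρ]
      have := hb (pt θ) (hpt1 θ).le
      nlinarith
    have h3 : 0 < ‖(1 + r * B (pt θ) : ℂ)‖ := norm_pos_iff.2 (hden _ (hpt1 θ).le)
    rw [div_le_div_iff₀ (by positivity) (by positivity)]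
    have h4 : ‖(1 + r * B (pt θ) : ℂ)‖ ^ 2 ≤ (2 * ρ) ^ 2 := by
      exact pow_le_pow_left₀ h3.le h1 2
    have h5 := hnum θ
    nlinarith
  have hmk := mul_meas_ge_le_integral_of_nonneg (μ := volume.restrict (Ioc 0 (2 * Real.pi)))
    (f := fun θ => (g (pt θ)).re) (Eventually.of_forall hpos)
    ((Complex.continuous_re.comp hgpc).integrableOn_Ioc) (1 / (4 * ρ))
  rw [hint] at hmk
  have hsub : {θ | ‖B (pt θ) + 1‖ < ρ} ⊆ {θ | 1 / (4 * ρ) ≤ (g (pt θ)).re} := fun θ hθ => hbig θ hθ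
  refine (measure_mono hsub).trans ?_
  rw [← ofReal_measureReal (arcLength_lt_top _).ne]
  refine ENNReal.ofReal_le_ofReal ?_
  have h6 : 1 / (4 * ρ) * arcLength.real {θ | 1 / (4 * ρ) ≤ (g (pt θ)).re} ≤ 2 * Real.pi := hmk
  rw [div_mul_eq_mul_div, one_mul, div_le_iff₀ (by positivity)] at h6
  linarith

/-- size of the exceptional neighbourhoods of `-1` -/
noncomputable def rho (k : ℕ) : ℝ := 4 * (1 / 2) ^ k

lemma rho_pos (k : ℕ) : 0 < rho k := by unfold rho; positivity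

lemma ae_good : ∀ᵐ θ ∂arcLength, ∀ᶠ k in atTop, rho k ≤ ‖BB (4 ^ k) (pt θ) + 1‖ := by
  have hb : ∀ k, arcLength {θ | ‖BB (4 ^ k) (pt θ) + 1‖ < rho k} ≤
      ENNReal.ofReal (32 * Real.pi * (1 / 2) ^ k) := by
    intro k
    rcases lt_or_ge (rho k) 1 with h | h
    · refine (meas_bound (BB_cont _) (BB_diff _) (fun z hz => (BB_le _ hz).trans hz) (BB_zero _)
        (rho_pos k) h).trans (ENNReal.ofReal_le_ofReal ?_)
      unfold rho
      linarith [Real.pi_pos]
    · refine (measure_mono (subset_univ _)).trans ?_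
      have h1 : arcLength univ = ENNReal.ofReal (2 * Real.pi) := by
        simp only [arcLength, Measure.restrict_apply MeasurableSet.univ, univ_inter,
          Real.volume_Ioc, sub_zero]
      rw [h1]
      refine ENNReal.ofReal_le_ofReal ?_
      unfold rho at h
      nlinarith [Real.pi_pos]
  have hs : ∑' k, arcLength {θ | ‖BB (4 ^ k) (pt θ) + 1‖ < rho k} ≠ ⊤ := by
    refine ne_top_of_le_ne_top ?_ (ENNReal.tsum_le_tsum hb)
    have hsum : Summable (fun k : ℕ => 32 * Real.pi * ((1 : ℝ) / 2) ^ k) :=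
      (summable_geometric_of_lt_one (by norm_num) (by norm_num)).mul_left _
    rw [← ENNReal.ofReal_tsum_of_nonneg (fun k => by positivity) hsum]
    exact ENNReal.ofReal_ne_top
  filter_upwards [ae_eventually_notMem hs] with θ hθ
  filter_upwards [hθ] with k hk
  simpa using hk

lemma bl_drift {c : ℝ} (hc : |c| < 1) (hc0 : c < 1) {w : ℂ} (hw : ‖w‖ = 1) {s : ℝ}
    (hs : 1 - c < s) (hs' : s ≤ ‖w + 1‖) :
    ‖bl c w - w‖ ≤ 2 * (1 - c) / (s - (1 - c)) := by
  have hd := den_ne hc hw.le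
  have h1 : bl c w - w = w * ((1 - c) * (w - 1)) / (1 + c * w) := by
    unfold bl mob
    rw [eq_div_iff hd, sub_mul, mul_assoc, div_mul_cancel₀ _ hd]
    ring
  have h2 : s - (1 - c) ≤ ‖(1 + c * w : ℂ)‖ := by
    have h3 : (1 + c * w : ℂ) = (w + 1) - (1 - c : ℝ) * w := by push_cast; ring
    rw [h3]
    have h4 := norm_sub_norm_le (w + 1) ((1 - c : ℝ) * w)
    rw [norm_mul, Complex.norm_real, Real.norm_eq_abs, hw, mul_one,
      abs_of_pos (by linarith : 0 < 1 - c)] at h4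
    linarith
  have h5 : ‖w - 1‖ ≤ 2 := by
    refine (norm_sub_le _ _).trans ?_
    rw [hw, norm_one]; norm_num
  have h6 : ‖((1 : ℂ) - c)‖ = 1 - c := by
    have : ((1 : ℂ) - c) = ((1 - c : ℝ) : ℂ) := by push_cast; ring
    rw [this, Complex.norm_real, Real.norm_eq_abs, abs_of_pos (by linarith : 0 < 1 - c)]
  rw [h1, norm_div, norm_mul, norm_mul, hw, one_mul, h6]
  have h7 : 0 < s - (1 - c) := by linarith
  rw [div_le_div_iff₀ (lt_of_lt_of_le h7 h2) h7]
  have h8 : 0 < 1 - c := by linarith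
  calc (1 - c) * ‖w - 1‖ * (s - (1 - c)) ≤ (1 - c) * 2 * ‖(1 + c * w : ℂ)‖ := by
        apply mul_le_mul _ h2 h7.le (by positivity)
        exact mul_le_mul_of_nonneg_left h5 h8.le
    _ = 2 * (1 - c) * ‖(1 + c * w : ℂ)‖ := by ring

lemma log_block {k j : ℕ} (hj : 4 ^ k + j < 4 ^ (k + 1)) : Nat.log 4 (4 ^ k + j) = k :=
  Nat.log_eq_of_pow_le_of_lt_pow (Nat.le_add_right _ _) hj

lemma block_drift {ζ : ℂ} (hζ : ‖ζ‖ = 1) {k : ℕ} (hk : rho k ≤ ‖BB (4 ^ k) ζ + 1‖) (j : ℕ)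
    (hj : 4 ^ k + j < 4 ^ (k + 1)) :
    ‖BB (4 ^ k + j) ζ - BB (4 ^ k) ζ‖ ≤ j * (8 * (1 / 16) ^ (k + 1) / rho k) := by
  induction j with
  | zero => simp
  | succ j ih =>
    have hj' : 4 ^ k + j < 4 ^ (k + 1) := by omega
    have ih' := ih hj'
    set w := BB (4 ^ k + j) ζ with hw
    have hw1 : ‖w‖ = 1 := BB_one _ hζ
    have hcv : cv (4 ^ k + j) = 1 - (1 / 16) ^ (k + 1) := by
      unfold cv
      rw [log_block hj']
      have : Nat.log 4 (4 ^ k + j + 1) = k := log_block (k := k) (j := j + 1) (by omega)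
      rw [this, if_pos rfl]
    have hstep : BB (4 ^ k + (j + 1)) ζ = bl (cv (4 ^ k + j)) w := rfl
    have hjb : (j : ℝ) ≤ 3 * 4 ^ k := by
      have : 4 ^ (k + 1) = 4 * 4 ^ k := by ring
      have h2 : j ≤ 3 * 4 ^ k := by omega
      exact_mod_cast h2
    set y : ℝ := (1 / 2) ^ k with hy
    have hy0 : 0 < y := by positivity
    have hy1 : y ≤ 1 := pow_le_one₀ (by norm_num) (by norm_num)
    have h4 : (4 : ℝ) ^ k * y ^ 2 = 1 := by
      rw [hy, ← pow_mul, mul_comm k 2, pow_mul, ← mul_pow]; norm_num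
    have h16 : ((1 : ℝ) / 16) ^ (k + 1) = y ^ 4 / 16 := by
      rw [hy, ← pow_mul, mul_comm k 4, pow_mul, pow_succ]; norm_num; ring
    have hrho : rho k = 4 * y := rfl
    have hδ : (8 * (1 / 16) ^ (k + 1) / rho k : ℝ) = y ^ 3 / 8 := by
      rw [h16, hrho]; field_simp; ring
    rw [hδ] at ih' ⊢
    have hdr : (j : ℝ) * (y ^ 3 / 8) ≤ 3 / 8 * y := by
      calc (j : ℝ) * (y ^ 3 / 8) ≤ (3 * 4 ^ k) * (y ^ 3 / 8) :=
            mul_le_mul_of_nonneg_right hjb (by positivity)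
        _ = 3 / 8 * (4 ^ k * y ^ 2) * y := by ring
        _ = 3 / 8 * y := by rw [h4]; ring
    have hfar : 2 * y ≤ ‖w + 1‖ := by
      have h5 : BB (4 ^ k) ζ + 1 = (w + 1) - (w - BB (4 ^ k) ζ) := by ring
      have h6 := norm_sub_le (w + 1) (w - BB (4 ^ k) ζ)
      rw [← h5] at h6
      rw [hrho] at hk
      linarith
    have hε : 1 - cv (4 ^ k + j) = y ^ 4 / 16 := by rw [hcv, h16]; ring
    have hy4 : y ^ 4 ≤ y := by
      calc y ^ 4 = y * y ^ 3 := by ring
        _ ≤ y * 1 := mul_le_mul_of_nonneg_left (pow_le_one₀ hy0.le hy1) hy0.le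
        _ = y := mul_one y
    have hb := bl_drift (cv_abs (4 ^ k + j)) (cv_lt _) hw1 (s := 2 * y)
      (by rw [hε]; linarith) hfar
    rw [hε] at hb
    have hb2 : 2 * (y ^ 4 / 16) / (2 * y - y ^ 4 / 16) ≤ y ^ 3 / 8 := by
      rw [div_le_iff₀ (by linarith)]
      have h7 : y ≤ 2 * y - y ^ 4 / 16 := by linarith
      calc 2 * (y ^ 4 / 16) = y ^ 3 / 8 * y := by ring
        _ ≤ y ^ 3 / 8 * (2 * y - y ^ 4 / 16) := mul_le_mul_of_nonneg_left h7 (by positivity)
    rw [hstep]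
    have h8 : bl (cv (4 ^ k + j)) w - BB (4 ^ k) ζ =
        (bl (cv (4 ^ k + j)) w - w) + (w - BB (4 ^ k) ζ) := by ring
    rw [h8]
    refine (norm_add_le _ _).trans ?_
    push_cast
    linarith

lemma block_far {ζ : ℂ} (hζ : ‖ζ‖ = 1) {k : ℕ} (hk : rho k ≤ ‖BB (4 ^ k) ζ + 1‖) (n : ℕ)
    (hn : n ≠ 0) (hnk : Nat.log 4 n = k) : 2 * (1 / 2) ^ k ≤ ‖BB n ζ + 1‖ := by
  have h1 : 4 ^ k ≤ n := by rw [← hnk]; exact Nat.pow_log_le_self 4 hn
  have h2 : n < 4 ^ (k + 1) := by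
    rw [← hnk]; exact Nat.lt_pow_succ_log_self (by norm_num) n
  obtain ⟨j, rfl⟩ := Nat.exists_eq_add_of_le h1
  have h3 := block_drift hζ hk j h2
  set y : ℝ := (1 / 2) ^ k with hy
  have hy0 : 0 < y := by positivity
  have h4 : (4 : ℝ) ^ k * y ^ 2 = 1 := by
    rw [hy, ← pow_mul, mul_comm k 2, pow_mul, ← mul_pow]; norm_num
  have h16 : ((1 : ℝ) / 16) ^ (k + 1) = y ^ 4 / 16 := by
    rw [hy, ← pow_mul, mul_comm k 4, pow_mul, pow_succ]; norm_num; ring
  have hrho : rho k = 4 * y := rfl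
  have hδ : (8 * (1 / 16) ^ (k + 1) / rho k : ℝ) = y ^ 3 / 8 := by
    rw [h16, hrho]; field_simp; ring
  have hjb : (j : ℝ) ≤ 3 * 4 ^ k := by
    have : 4 ^ (k + 1) = 4 * 4 ^ k := by ring
    have h2 : j ≤ 3 * 4 ^ k := by omega
    exact_mod_cast h2
  rw [hδ] at h3
  have hdr : (j : ℝ) * (y ^ 3 / 8) ≤ 3 / 8 * y := by
    calc (j : ℝ) * (y ^ 3 / 8) ≤ (3 * 4 ^ k) * (y ^ 3 / 8) :=
          mul_le_mul_of_nonneg_right hjb (by positivity)
      _ = 3 / 8 * (4 ^ k * y ^ 2) * y := by ring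
      _ = 3 / 8 * y := by rw [h4]; ring
  have h5 : BB (4 ^ k) ζ + 1 = (BB (4 ^ k + j) ζ + 1) - (BB (4 ^ k + j) ζ - BB (4 ^ k) ζ) := by
    ring
  have h6 := norm_sub_le (BB (4 ^ k + j) ζ + 1) (BB (4 ^ k + j) ζ - BB (4 ^ k) ζ)
  rw [← h5] at h6
  rw [hrho] at hk
  linarith

lemma final_est {a : ℝ} (ha0 : 0 ≤ a) (ha1 : a < 1) {w : ℂ} (hw : ‖w‖ = 1) {y : ℝ} (hy : 0 < y)
    (hay : 1 - a = y ^ 2) (hy1 : y ≤ 1) (hfar : 2 * y ≤ ‖w + 1‖) : ‖mob a w - a‖ ≤ 2 * y := by
  have ha : |a| < 1 := by rwa [abs_of_nonneg ha0]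
  have hd := den_ne ha hw.le
  have h1 : mob a w - a = w * ((1 - a ^ 2 : ℝ) : ℂ) / (1 + a * w) := by
    unfold mob
    rw [eq_div_iff hd, sub_mul, div_mul_cancel₀ _ hd]
    push_cast
    ring
  have h2 : y ≤ ‖(1 + a * w : ℂ)‖ := by
    have h3 : (1 + a * w : ℂ) = (w + 1) - (1 - a : ℝ) * w := by push_cast; ring
    rw [h3]
    have h4 := norm_sub_norm_le (w + 1) ((1 - a : ℝ) * w)
    rw [norm_mul, Complex.norm_real, Real.norm_eq_abs, hw, mul_one,
      abs_of_pos (by linarith : 0 < 1 - a)] at h4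
    nlinarith
  have h5 : 0 ≤ 1 - a ^ 2 := by nlinarith
  rw [h1, norm_div, norm_mul, hw, one_mul, Complex.norm_real, Real.norm_eq_abs, abs_of_nonneg h5,
    div_le_iff₀ (lt_of_lt_of_le hy h2)]
  nlinarith

lemma ae_dw : ∀ᵐ θ ∂arcLength, θ ∈ denjoyWolffSet (forward ff) := by
  filter_upwards [ae_good] with θ hθ
  have hp : ‖pt θ‖ = 1 := by simp [pt]
  have hfc : ∀ n, ContinuousOn (fun z => mob (av n) (BB n z)) (closedBall 0 1) := fun n =>
    (mob_cont (av_abs n)).comp (BB_cont n) (BB_maps n)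
  refine ⟨fun n => mob (av n) (BB n (pt θ)), fun n => ?_, ?_⟩
  · have h1 := radial_of_cont (hfc n) θ
    refine h1.congr' ?_
    have : Ioo (0 : ℝ) 1 ∈ 𝓝[<] (1 : ℝ) := Ioo_mem_nhdsLT one_pos
    filter_upwards [this] with r hr
    rw [forward_eq n]
    rw [norm_mul, hp, mul_one, Complex.norm_real, Real.norm_eq_abs, abs_of_pos hr.1]
    exact hr.2.le
  · have h2 : Tendsto (fun n => 2 * ((1 : ℝ) / 2) ^ (Nat.log 4 n)) atTop (𝓝 0) := by
      have := ((tendsto_pow_atTop_nhds_zero_of_lt_one (r := (1 : ℝ) / 2) (by norm_num)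
        (by norm_num)).comp log_tendsto).const_mul 2
      simpa using this
    refine squeeze_zero' (Eventually.of_forall fun _ => norm_nonneg _) ?_ h2
    filter_upwards [log_tendsto.eventually hθ, eventually_ge_atTop 1] with n hn hn1
    rw [forward_eq n (by simp), BB_zero, mob_zero_right]
    refine final_est (av_nonneg n) (av_lt n) (BB_one n hp) (by positivity) ?_
      (pow_le_one₀ (by norm_num) (by norm_num)) (block_far hp hn n (by omega) rfl)
    unfold av
    rw [← pow_mul, mul_comm _ 2, pow_mul]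
    norm_num

/-- There is a contracting forward composition of (non-injective) inner functions whose interior
orbits converge to the boundary, with divergent series of `1 - |F_n(0)|`, whose Denjoy-Wolff set
has full measure. -/
theorem result : ∃ f : ℕ → ℂ → ℂ,
    (∀ n, IsInner (f n)) ∧ (∀ n, ¬ InjOn (f n) (ball 0 1)) ∧
    Contracting (forward f) ∧ OrbitsToBoundary (forward f) ∧
    ¬ Summable (fun n => 1 - ‖forward f n 0‖) ∧
    ∀ᵐ θ ∂arcLength, θ ∈ denjoyWolffSet (forward f) :=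
  ⟨ff, ff_inner, ff_not_inj, contracting, to_boundary, not_summable, ae_dw⟩

end Pool.Agent.Results.MP_9b5b1e_an.SlowContraction
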